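import Pool.Agent.L5helper98.CQ.Stmts

/-!
Project CQ (helper98), Task BadPb (helper15): the probability that a fixed set is bad.
-/

set_option autoImplicit false

namespace Pool.Agent.L5helper15.CQ

open Finset Pool.Agent.L5helper98.CQ
open scoped Classical

lemma card_small {α : Type} (A : Finset α) (Y : ℕ) :
    ((A.powerset).filter (fun G => G.card ≤ Y)).card ≤ (A.card + 1) ^ Y := by
  induction Y with
  | zero =>
    rw [pow_zero]
    apply card_le_one.2
    intro a ha b hb
    rw [mem_filter] at ha hb
    have h1 : a = ∅ := card_eq_zero.1 (Nat.le_zero.1 ha.2)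
    have h2 : b = ∅ := card_eq_zero.1 (Nat.le_zero.1 hb.2)
    rw [h1, h2]
  | succ Y ih =>
    have hsub : (A.powerset).filter (fun G => G.card ≤ Y + 1) ⊆
        ((A.powerset).filter (fun G => G.card ≤ Y)) ∪
        (A ×ˢ ((A.powerset).filter (fun G => G.card ≤ Y))).image (fun x => insert x.1 x.2) := by
      intro G hG
      rw [mem_filter, mem_powerset] at hG
      rw [mem_union]
      by_cases h : G.card ≤ Y
      · exact Or.inl (mem_filter.2 ⟨mem_powerset.2 hG.1, h⟩)
      · right
        have hne : G.Nonempty := by
          rw [← card_pos]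
          omega
        obtain ⟨a, ha⟩ := hne
        rw [mem_image]
        refine ⟨(a, G.erase a), ?_, insert_erase ha⟩
        rw [mem_product, mem_filter, mem_powerset]
        refine ⟨hG.1 ha, (erase_subset _ _).trans hG.1, ?_⟩
        show (G.erase a).card ≤ Y
        rw [card_erase_of_mem ha]
        omega
    calc ((A.powerset).filter (fun G => G.card ≤ Y + 1)).card
        ≤ ((A.powerset).filter (fun G => G.card ≤ Y)).card +
          A.card * ((A.powerset).filter (fun G => G.card ≤ Y)).card := by
          refine (card_le_card hsub).trans ((card_union_le _ _).trans ?_)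
          refine Nat.add_le_add_left (card_image_le.trans ?_) _
          rw [card_product]
      _ = (A.card + 1) * ((A.powerset).filter (fun G => G.card ≤ Y)).card := by ring
      _ ≤ (A.card + 1) * (A.card + 1) ^ Y := Nat.mul_le_mul_left _ ih
      _ = (A.card + 1) ^ (Y + 1) := by ring

variable {n : ℕ}

/-- the `r`-sets in `S` without common neighbour outside `S` -/
noncomputable def RR (r : ℕ) (S : Finset (Fin n)) (ω : Om n) : Finset (Finset (Fin n)) :=
  (powersetCard r S).filter (fun K => ∀ w, w ∉ S → ¬ K ⊆ nb ω w S)

/-- the section of `G` at `v` -/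
noncomputable def sec (G : Finset (Fin n × Fin n)) (v : Fin n) : Finset (Fin n) :=
  univ.filter (fun u => (v, u) ∈ G)

/-- the `r`-sets in `S` that are contained in no section of `G` -/
noncomputable def FG (r : ℕ) (S : Finset (Fin n)) (G : Finset (Fin n × Fin n)) :
    Finset (Finset (Fin n)) :=
  (powersetCard r S).filter (fun K => ∀ v, ¬ K ⊆ sec G v)

/-- the sets `G` for the union bound -/
noncomputable def GG (r Y : ℕ) (F0 : ℝ) (S : Finset (Fin n)) : Finset (Finset (Fin n × Fin n)) :=
  (((univ ×ˢ S).powerset).filter (fun G => G.card ≤ Y)).filter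
    (fun G => F0 ≤ ((FG r S G).card : ℝ))

lemma GG_card (r Y : ℕ) (F0 : ℝ) (S : Finset (Fin n)) :
    ((GG r Y F0 S).card : ℝ) ≤ ((n : ℝ) * S.card + 1) ^ Y := by
  have h1 : (GG r Y F0 S).card ≤ (n * S.card + 1) ^ Y := by
    refine (card_filter_le _ _).trans ((card_small _ _).trans ?_)
    rw [card_product, card_univ, Fintype.card_fin]
  exact_mod_cast h1

/-- the pairs between `v ∉ S` and `S` are not in `prs S S` -/
lemma nb_mix (S : Finset (Fin n)) (ω ω' : Om n) (w : Fin n) (hw : w ∉ S) :
    nb (mix (prs S S) ω ω') w S = nb ω' w S := by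
  ext u
  rw [mem_nb, mem_nb, mem_mix, mem_prs]
  tauto

lemma RR_mix (r : ℕ) (S : Finset (Fin n)) (ω ω' : Om n) :
    RR r S (mix (prs S S) ω ω') = RR r S ω' := by
  unfold RR
  apply filter_congr
  intro K _
  constructor
  · intro h w hw
    rw [← nb_mix S ω ω' w hw]
    exact h w hw
  · intro h w hw
    rw [nb_mix S ω ω' w hw]
    exact h w hw

lemma cl_mix (S : Finset (Fin n)) (ω ω' : Om n) (K : Finset (Fin n)) (hK : K ⊆ S) :
    cl (mix (prs S S) ω ω') K ↔ cl ω K := by
  unfold cl
  constructor
  · intro h u hu v hv huv
    have h1 := h u hu v hv huv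
    rw [mem_mix, mem_prs] at h1
    have := hK hu
    have := hK hv
    tauto
  · intro h u hu v hv huv
    have h1 := h u hu v hv huv
    rw [mem_mix, mem_prs]
    have := hK hu
    have := hK hv
    tauto

theorem taskBadPb : TaskBadPb := by
  intro hProc hJan n r τ Y p κ F0 b m lam Λ S hp0 hp1 hr hF hb0 hb1 hm0 hmF hlam hτ hΛ hj
  have hF0 : 0 < F0 := lt_of_lt_of_le hm0 hmF
  -- the three events
  obtain ⟨Dg, hDg⟩ : ∃ Dg : Om n → Prop, Dg = fun ω =>
    Y ≤ ∑ v ∈ (univ \ S).filter (fun v => τ ≤ (nb ω v S).card), (nb ω v S).card := ⟨_, rfl⟩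
  obtain ⟨E1, hE1⟩ : ∃ E1 : Om n → Prop, E1 = fun ω => ∃ G ∈ GG r Y F0 S,
    (((FG r S G).filter (fun K => ∀ v, v ∉ S → (nb ω v S).card < τ →
        ¬ K ⊆ nb ω v S)).card : ℝ) ≤ m := ⟨_, rfl⟩
  obtain ⟨E2, hE2⟩ : ∃ E2 : Om n → Prop, E2 = fun ω =>
    m < ((RR r S ω).card : ℝ) ∧ ∀ K ∈ RR r S ω, ¬ cl ω K := ⟨_, rfl⟩
  have hcov : ∀ ω : Om n, BadS r κ S ω → (Dg ω ∨ E1 ω) ∨ E2 ω := by
    intro ω hbad
    obtain ⟨hb1, hb2, hb3⟩ := hbad
    by_cases hD : Dg ω
    · exact Or.inl (Or.inl hD)
    · have hD' : ∑ v ∈ (univ \ S).filter (fun v => τ ≤ (nb ω v S).card), (nb ω v S).card < Y := by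
        rw [hDg] at hD
        exact not_le.1 hD
      obtain ⟨M, hM⟩ : ∃ M : Finset (Fin n), M = (univ \ S).filter (fun v => τ ≤ (nb ω v S).card) :=
        ⟨_, rfl⟩
      rw [← hM] at hD'
      have hMS : ∀ v ∈ M, v ∉ S := by
        intro v hv
        rw [hM, mem_filter, mem_sdiff] at hv
        exact hv.1.2
      by_cases hR : ((RR r S ω).card : ℝ) ≤ m
      · left; right
        rw [hE1]
        obtain ⟨G, hG⟩ : ∃ G : Finset (Fin n × Fin n), G =
          (M.biUnion (fun v => (nb ω v S).image (fun u => (v, u)))) := ⟨_, rfl⟩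
        have hGm : ∀ v u, (v, u) ∈ G ↔ v ∈ M ∧ u ∈ nb ω v S := by
          intro v u
          rw [hG, mem_biUnion]
          constructor
          · rintro ⟨v', hv', hu⟩
            rw [mem_image] at hu
            obtain ⟨u', hu', he⟩ := hu
            rw [Prod.mk.injEq] at he
            obtain ⟨rfl, rfl⟩ := he
            exact ⟨hv', hu'⟩
          · rintro ⟨hv, hu⟩
            exact ⟨v, hv, mem_image.2 ⟨u, hu, rfl⟩⟩
        have hsec : ∀ v ∈ M, sec G v = nb ω v S := by
          intro v hv
          ext u
          unfold sec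
          rw [mem_filter, hGm]
          simp [hv]
        have hsec0 : ∀ v, v ∉ M → sec G v = ∅ := by
          intro v hv
          unfold sec
          rw [filter_eq_empty_iff]
          intro u _
          rw [hGm]
          tauto
        have hFGeq : FG r S G = (powersetCard r S).filter (fun K => ∀ v ∈ M, ¬ K ⊆ nb ω v S) := by
          unfold FG
          apply filter_congr
          intro K hK
          rw [mem_powersetCard] at hK
          constructor
          · intro h v hv
            rw [← hsec v hv]
            exact h v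
          · intro h v
            by_cases hv : v ∈ M
            · rw [hsec v hv]
              exact h v hv
            · rw [hsec0 v hv, subset_empty]
              intro he
              rw [he, card_empty] at hK
              omega
        refine ⟨G, ?_, ?_⟩
        · unfold GG
          rw [mem_filter, mem_filter, mem_powerset]
          refine ⟨⟨?_, ?_⟩, ?_⟩
          · rintro ⟨v, u⟩ hvu
            rw [hGm] at hvu
            rw [mem_product]
            exact ⟨mem_univ _, ((mem_nb ω v S u).1 hvu.2).1⟩
          · rw [hG]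
            refine card_biUnion_le.trans ?_
            refine le_trans (sum_le_sum fun v _ => card_image_le) hD'.le
          · rw [hFGeq]
            apply hF M (fun v => nb ω v S)
            · intro v _
              exact filter_subset _ _
            · intro v hv
              exact hb2 v (hMS v hv)
            · exact hD'.le
            · intro R hR1 hR2
              refine le_trans ?_ (hb1 R hR2)
              have : (S.filter (fun u => ∀ v ∈ R, u ∈ nb ω v S)) ⊆ cn ω R := by
                intro u hu
                rw [mem_filter] at hu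
                unfold cn
                rw [mem_filter]
                refine ⟨mem_univ _, fun v hv => ?_⟩
                have h3 := (mem_nb ω v S u).1 (hu.2 v hv)
                exact ⟨h3.2.1, h3.2.2⟩
              exact_mod_cast card_le_card this
        · refine le_trans ?_ hR
          have : ((FG r S G).filter (fun K => ∀ v, v ∉ S → (nb ω v S).card < τ →
              ¬ K ⊆ nb ω v S)) ⊆ RR r S ω := by
            intro K hK
            rw [mem_filter, hFGeq, mem_filter] at hK
            unfold RR
            rw [mem_filter]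
            refine ⟨hK.1.1, fun w hw => ?_⟩
            by_cases hwM : w ∈ M
            · exact hK.1.2 w hwM
            · apply hK.2 w hw
              by_contra hc
              apply hwM
              rw [hM, mem_filter, mem_sdiff]
              exact ⟨⟨mem_univ _, hw⟩, not_lt.1 hc⟩
          exact_mod_cast card_le_card this
      · right
        rw [hE2]
        refine ⟨not_le.1 hR, ?_⟩
        intro K hK hcl
        unfold RR at hK
        rw [mem_filter, mem_powersetCard] at hK
        apply hb3
        refine ⟨K, hK.1.1, hK.1.2, hcl, ?_⟩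
        intro w hw
        obtain ⟨u, hu, hu'⟩ := not_subset.1 (hK.2 w hw)
        refine ⟨u, hu, fun hadj => hu' ?_⟩
        rw [mem_nb]
        exact ⟨hK.1.1 hu, hadj.1, hadj.2⟩
  have h1 : Pb p (fun ω : Om n => BadS r κ S ω) ≤ (Pb p Dg + Pb p E1) + Pb p E2 := by
    refine (Pb_mono hp0.le hp1 hcov).trans ((Pb_or hp0.le hp1 _ _).trans ?_)
    exact add_le_add_left (Pb_or hp0.le hp1 _ _) _
  have h2 : Pb p E1 ≤ ((n : ℝ) * S.card + 1) ^ Y *
      ((m / F0) ^ lam * Real.exp (n * p ^ r * (((1 - b) ^ (-lam) - 1) / b))) := by
    rw [hE1]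
    refine (Pb_exists_mem hp0.le hp1 _ _).trans ?_
    calc ∑ G ∈ GG r Y F0 S, Pb p (fun ω : Om n =>
          (((FG r S G).filter (fun K => ∀ v, v ∉ S → (nb ω v S).card < τ →
            ¬ K ⊆ nb ω v S)).card : ℝ) ≤ m)
        ≤ ∑ G ∈ GG r Y F0 S,
          ((m / F0) ^ lam * Real.exp (n * p ^ r * (((1 - b) ^ (-lam) - 1) / b))) := by
          apply sum_le_sum
          intro G hG
          unfold GG at hG
          rw [mem_filter] at hG
          have hFG : F0 ≤ ((FG r S G).card : ℝ) := hG.2
          have h3 := hProc n r τ p b m lam S (FG r S G) hp0.le hp1 (by omega) hb0 hb1 hm0 hlam hτ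
            (by
              intro K hK
              unfold FG at hK
              rw [mem_filter, mem_powersetCard] at hK
              exact hK.1) (hmF.trans hFG)
          refine h3.trans ?_
          refine mul_le_mul_of_nonneg_right ?_ (Real.exp_pos _).le
          apply Real.rpow_le_rpow (by positivity) _ hlam
          exact div_le_div_of_nonneg_left hm0.le hF0 hFG
      _ = ((GG r Y F0 S).card : ℝ) *
          ((m / F0) ^ lam * Real.exp (n * p ^ r * (((1 - b) ^ (-lam) - 1) / b))) := by
          rw [sum_const, nsmul_eq_mul]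
      _ ≤ _ := by
          refine mul_le_mul_of_nonneg_right (GG_card r Y F0 S) ?_
          have : 0 ≤ m / F0 := by positivity
          exact mul_nonneg (Real.rpow_nonneg this _) (Real.exp_pos _).le
  have h3 : Pb p E2 ≤ Real.exp (- Λ / 2) := by
    apply Pb_le_of_mix hp0.le hp1 (prs S S)
    intro ω'
    rw [hE2]
    by_cases hm : m < ((RR r S ω').card : ℝ)
    · have h4 := hJan n r p Λ S (RR r S ω') hp0 hp1 hr hΛ
        (by
          intro K hK
          unfold RR at hK
          rw [mem_filter, mem_powersetCard] at hK
          exact hK.1)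
        (by
          intro j hj1 hj2
          refine (hj j hj1 hj2).trans ?_
          exact mul_le_mul_of_nonneg_right hm.le (by positivity))
      refine le_trans ?_ h4
      apply Pb_mono hp0.le hp1
      rintro ω ⟨-, h5⟩ K hK hcl
      rw [RR_mix] at h5
      apply h5 K hK
      have hKS : K ⊆ S := by
        unfold RR at hK
        rw [mem_filter, mem_powersetCard] at hK
        exact hK.1.1
      rw [cl_mix S ω ω' K hKS]
      exact hcl
    · have h4 : Pb p (fun ω : Om n => (fun ω => m < ((RR r S ω).card : ℝ) ∧
          ∀ K ∈ RR r S ω, ¬ cl ω K) (mix (prs S S) ω ω')) ≤ Pb p (fun _ : Om n => False) := by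
        apply Pb_mono hp0.le hp1
        rintro ω ⟨h5, -⟩
        rw [RR_mix] at h5
        exact hm h5
      refine h4.trans ?_
      have h5 : Pb p (fun _ : Om n => False) = 0 := by
        unfold Pb
        simp only [if_false]
        exact Ex_const p 0
      rw [h5]
      exact (Real.exp_pos _).le
  rw [hDg] at h1
  linarith

end Pool.Agent.L5helper15.CQ
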