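import Pool.Agent.L5helper98.CQ.Stmts

/-!
Project CQ (helper98), Task TopLow (helper15): the final assembly of the lower bound.
-/

set_option autoImplicit false

namespace Pool.Agent.L5helper15.CQ

open Finset Pool.Agent.L5helper98.CQ Filter
open scoped Classical

lemma ev (C a : ℝ) (ha : 0 < a) (j : ℕ) :
    ∀ᶠ n : ℕ in atTop, C * Real.log n ^ j ≤ (n : ℝ) ^ a := by
  have h1 := (isLittleO_log_rpow_rpow_atTop (j : ℝ) ha).def (c := 1 / (|C| + 1)) (by positivity)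
  have h2 := (tendsto_natCast_atTop_atTop (R := ℝ)).eventually h1
  filter_upwards [h2, eventually_ge_atTop 1] with n hn hn1
  have hn0 : (1 : ℝ) ≤ n := by exact_mod_cast hn1
  have hl : 0 ≤ Real.log n := Real.log_natCast_nonneg n
  have hp : 0 ≤ (n : ℝ) ^ a := by positivity
  rw [Real.rpow_natCast, Real.norm_of_nonneg (by positivity), Real.norm_of_nonneg hp] at hn
  have hC : 0 < |C| + 1 := by positivity
  have h3 : (|C| + 1) * Real.log n ^ j ≤ (n : ℝ) ^ a := by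
    have := mul_le_mul_of_nonneg_left hn hC.le
    have e : (|C| + 1) * (1 / (|C| + 1) * (n : ℝ) ^ a) = (n : ℝ) ^ a := by field_simp
    rw [e] at this
    exact this
  have h4 : C * Real.log n ^ j ≤ (|C| + 1) * Real.log n ^ j := by
    refine mul_le_mul_of_nonneg_right ?_ (by positivity)
    linarith [le_abs_self C]
  linarith

lemma ev_log (C : ℝ) : ∀ᶠ n : ℕ in atTop, C ≤ Real.log n :=
  (Real.tendsto_log_atTop.comp tendsto_natCast_atTop_atTop).eventually_ge_atTop C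

lemma one_sub_ge {p : ℝ} (h0 : 0 ≤ p) (h1 : p ≤ 1 / 2) : Real.exp (-(p + p ^ 2)) ≤ 1 - p := by
  have h2 : 0 < 1 - p := by linarith
  rw [Real.exp_neg, inv_le_comm₀ (Real.exp_pos _) h2]
  have h3 := Real.quadratic_le_exp_of_nonneg (x := p + p ^ 2) (by positivity)
  refine le_trans ?_ h3
  rw [inv_le_iff_one_le_mul₀ h2]
  have e : (1 + (p + p ^ 2) + (p + p ^ 2) ^ 2 / 2) * (1 - p) =
      1 + p ^ 2 * (1 - p - p ^ 2 - p ^ 3) / 2 := by ring
  have h4 : p ^ 2 ≤ (1 / 2) ^ 2 := pow_le_pow_left₀ h0 h1 2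
  have h5 : p ^ 3 ≤ (1 / 2) ^ 3 := pow_le_pow_left₀ h0 h1 3
  have h6 : 0 ≤ p ^ 2 * (1 - p - p ^ 2 - p ^ 3) :=
    mul_nonneg (sq_nonneg p) (by linarith)
  rw [e]
  linarith

lemma fixed (hCN : TaskCN) (hCh : TaskChern) (hLD : TaskLowDet) (hLR : TaskLowR) (ε δ : ℝ)
    (hε : 0 < ε) (hδ : 0 < δ) (hδ1 : δ < 1) (r : ℕ) (hr : 3 ≤ r) :
    ∃ n0 : ℕ, ∀ n : ℕ, n0 ≤ n → ∀ p : ℝ, rng ε n p →
      n * p ^ r ≤ ((r : ℝ) - 1) / 2 * Real.log (1 / p) - (ε * δ / 16) * Real.log n →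
      (r : ℝ) / 2 * Real.log (1 / p) + n * p ^ r / ((r : ℝ) - 1) ≤
        ls n p + 2 * (ε * δ / 16) * Real.log n →
      ε * Real.log n ≤ Real.log (n * p) - ls n p → Real.log (1 / p) ≤ ls n p →
      ls n p ≤ Real.log n →
      Pb p (fun ω : Om n => colorable ω ⌊(1 - δ) * fv n p⌋₊) ≤ δ := by
  obtain ⟨γ, hγ⟩ : ∃ γ : ℝ, γ = ε * δ / 16 := ⟨_, rfl⟩
  have hγ0 : 0 < γ := by rw [hγ]; positivity
  obtain ⟨ζ, hζ⟩ : ∃ ζ : ℝ, ζ = γ / 4 := ⟨_, rfl⟩
  have hζ0 : 0 < ζ := by rw [hζ]; positivity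
  rw [← hγ]
  obtain ⟨κ, hκ, n1, hR⟩ := hLR ε γ ζ r hε hγ0 hζ0 hζ.le hr
  have hr3 : (3 : ℝ) ≤ r := by exact_mod_cast hr
  obtain ⟨n2, hn2⟩ := eventually_atTop.1 ((ev_log (r * Real.exp (r + 2))).and ((ev_log 1).and
    ((ev 1 ε hε 1).and ((ev 4 ζ hζ0 2).and ((ev (2 / κ) ζ hζ0 2).and
    ((ev (48 * Real.exp 1) (12 * γ) (by positivity) 1).and
    ((ev 4 (2 / 3) (by norm_num) 1).and ((ev 2 ε hε 0).and (ev 1 ζ hζ0 1)))))))))
  obtain ⟨n3, hn3⟩ := exists_nat_ge (3 / δ)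
  refine ⟨n1 + n2 + n3 + 2, ?_⟩
  intro n hn p hp hA hB hX1 hX2 hX3
  obtain ⟨g1, g2, g3, g4, g5, g6, g7, g8, g9⟩ := hn2 n (by omega)
  obtain ⟨ℓ, hℓ⟩ : ∃ ℓ : ℝ, ℓ = Real.log n := ⟨_, rfl⟩
  rw [← hℓ] at g1 g2 g3 g4 g5 g6 g7 g9 hA hB hX1 hX3
  rw [pow_one] at g3 g6 g7 g9
  rw [pow_zero, mul_one] at g8
  have hnr : (2 : ℝ) ≤ n := by exact_mod_cast (by omega : 2 ≤ n)
  have hn0 : (0 : ℝ) < n := by linarith
  have hexp : Real.exp ℓ = n := by rw [hℓ]; exact Real.exp_log hn0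
  have hnpow : ∀ a : ℝ, (n : ℝ) ^ a = Real.exp (a * ℓ) := by
    intro a
    rw [Real.rpow_def_of_pos hn0, hℓ, mul_comm]
  obtain ⟨hp1, hp2⟩ := hp
  have hp0 : 0 < p := lt_of_lt_of_le (Real.rpow_pos_of_pos hn0 _) hp1
  have hnε : (n : ℝ) ^ (-ε : ℝ) = ((n : ℝ) ^ ε)⁻¹ := Real.rpow_neg hn0.le ε
  have hεp : 0 < (n : ℝ) ^ ε := Real.rpow_pos_of_pos hn0 _
  have hph : p ≤ 1 / 2 := by
    rw [hnε] at hp2
    refine hp2.trans ?_
    rw [inv_le_comm₀ hεp (by norm_num)]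
    linarith
  have hp1' : p ≤ 1 := by linarith
  have hpl : p * ℓ ≤ 1 := by
    have h1 : p * (n : ℝ) ^ ε ≤ 1 := by
      have := mul_le_mul_of_nonneg_right hp2 hεp.le
      rw [hnε, inv_mul_cancel₀ hεp.ne'] at this
      exact this
    have h2 : p * ℓ ≤ p * (n : ℝ) ^ ε := by
      refine mul_le_mul_of_nonneg_left ?_ hp0.le
      linarith
    linarith
  have hlp0 : 0 ≤ Real.log (1 / p) := Real.log_nonneg (by rw [le_div_iff₀ hp0]; linarith)
  have hlp : Real.log (1 / p) = - Real.log p := by rw [one_div, Real.log_inv]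
  have hlnp : Real.log (n * p) = ℓ - Real.log (1 / p) := by
    rw [Real.log_mul hn0.ne' hp0.ne', hlp, ← hℓ]; ring
  -- `log (1/p) ≤ ℓ / 3`
  have hlp3 : Real.log (1 / p) ≤ (1 / 3) * ℓ := by
    have h1 := Real.log_le_log (Real.rpow_pos_of_pos hn0 _) hp1
    rw [Real.log_rpow hn0, ← hℓ] at h1
    rw [hlp]
    have h2 : 0 ≤ ε * ℓ := by positivity
    linarith
  obtain ⟨X, hX⟩ : ∃ X : ℝ, X = Real.log (n * p) - ls n p := ⟨_, rfl⟩
  rw [← hX] at hX1
  have hX0 : 0 ≤ X := le_trans (by positivity) hX1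
  have hXl : X ≤ ℓ := by rw [hX, hlnp]; linarith
  have hfv : fv n p = X / p := by rw [fv, hX]
  obtain ⟨t, ht⟩ : ∃ t : ℕ, t = ⌊(1 - δ) * fv n p⌋₊ := ⟨_, rfl⟩
  rw [← ht]
  have ht1 : (t : ℝ) ≤ (1 - δ) * (X / p) := by
    rw [ht, hfv]
    refine Nat.floor_le ?_
    have : 0 ≤ 1 - δ := by linarith
    positivity
  have htp : (t : ℝ) * p ≤ (1 - δ) * X := by
    have := mul_le_mul_of_nonneg_right ht1 hp0.le
    refine this.trans (le_of_eq ?_)
    field_simp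
  have ht0 : (0 : ℝ) ≤ t := Nat.cast_nonneg _
  have htl : (t : ℝ) * p ≤ ℓ := by
    refine htp.trans ?_
    have : 0 ≤ δ * X := by positivity
    linarith
  -- the size `s0`
  obtain ⟨s0, hs0⟩ : ∃ s0 : ℕ, s0 = sz n r p ζ := ⟨_, rfl⟩
  obtain ⟨V, hV⟩ : ∃ V : ℝ, V = p ^ (-(r : ℝ) / 2) * Real.exp (n * p ^ r / ((r : ℝ) - 1)) *
    (n : ℝ) ^ ζ := ⟨_, rfl⟩
  have hsV : s0 = ⌈V⌉₊ := by rw [hs0, sz, hV]
  have hVe : V = Real.exp ((r : ℝ) / 2 * Real.log (1 / p) + n * p ^ r / ((r : ℝ) - 1) + ζ * ℓ) := by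
    rw [hV, hnpow, Real.rpow_def_of_pos hp0, Real.exp_add, Real.exp_add, hlp]
    congr 3
    ring
  have hr1 : (0 : ℝ) < (r : ℝ) - 1 := by linarith
  have hζn : (n : ℝ) ^ ζ ≤ V := by
    rw [hVe, hnpow]
    apply Real.exp_le_exp.2
    have h1 : 0 ≤ (r : ℝ) / 2 * Real.log (1 / p) := by positivity
    have h2 : 0 ≤ n * p ^ r / ((r : ℝ) - 1) := by positivity
    linarith
  have hζ1 : 1 ≤ (n : ℝ) ^ ζ := Real.one_le_rpow (by linarith) hζ0.le
  have hsV1 : V ≤ s0 := by rw [hsV]; exact Nat.le_ceil V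
  have hsV2 : (s0 : ℝ) ≤ 2 * V := by
    have h1 : (s0 : ℝ) < V + 1 := by
      rw [hsV]
      exact Nat.ceil_lt_add_one (by linarith)
    linarith
  have hsn : (n : ℝ) ^ ζ ≤ s0 := hζn.trans hsV1
  have hs1 : 1 ≤ s0 := by exact_mod_cast hζ1.trans hsn
  -- `k`
  obtain ⟨k, hk⟩ : ∃ k : ℕ, k = ⌈ℓ ^ 2⌉₊ := ⟨_, rfl⟩
  have hk1 : ℓ ^ 2 ≤ k := by rw [hk]; exact Nat.le_ceil _
  have hl2 : 1 ≤ ℓ ^ 2 := one_le_pow₀ g2
  have hk2 : (k : ℝ) ≤ 2 * ℓ ^ 2 := by
    have h1 : (k : ℝ) < ℓ ^ 2 + 1 := by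
      rw [hk]
      exact Nat.ceil_lt_add_one (by positivity)
    linarith
  have h2k : 2 * k ≤ s0 := by
    have : ((2 * k : ℕ) : ℝ) ≤ s0 := by
      push_cast
      linarith
    exact_mod_cast this
  have hkκ : (k : ℝ) ≤ κ * s0 := by
    have h1 : κ * (2 / κ * ℓ ^ 2) ≤ κ * (n : ℝ) ^ ζ := mul_le_mul_of_nonneg_left g5 hκ.le
    have h2 : κ * (2 / κ * ℓ ^ 2) = 2 * ℓ ^ 2 := by field_simp
    have h3 : κ * (n : ℝ) ^ ζ ≤ κ * s0 := mul_le_mul_of_nonneg_left hsn hκ.le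
    linarith
  -- the events
  obtain ⟨E1, hE1⟩ : ∃ E1 : Om n → Prop, E1 = fun ω =>
    ∃ R : Finset (Fin n), R.card = r ∧ k ≤ (cn ω R).card := ⟨_, rfl⟩
  obtain ⟨E2, hE2⟩ : ∃ E2 : Om n → Prop, E2 = fun ω =>
    ∃ S : Finset (Fin n), sz n r p ζ ≤ S.card ∧ S.card ≤ r * sz n r p ζ ∧ BadS r κ S ω := ⟨_, rfl⟩
  obtain ⟨E3, hE3⟩ : ∃ E3 : Om n → Prop, E3 = fun ω =>
    ∃ v : Fin t → Fin n,
        ((univ.filter (fun u => ∀ i, ¬ adj ω (v i) u)).card : ℝ) ≤ (t : ℝ) * s0 := ⟨_, rfl⟩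
  have hcov : ∀ ω : Om n, colorable ω t → (E1 ω ∨ E2 ω) ∨ E3 ω := by
    intro ω hcol
    by_contra hne
    push Not at hne
    obtain ⟨⟨hn1, hn2⟩, hn3⟩ := hne
    rw [hE1] at hn1
    rw [hE2] at hn2
    rw [hE3] at hn3
    push Not at hn1 hn2 hn3
    refine hLD n r s0 t ω (by omega) hs1 ?_ ?_ ?_ hcol
    · intro R hR'
      have := hn1 R hR'
      omega
    · intro S hS1 hS2 hS3
      by_contra hK
      refine hn2 S (by rw [← hs0]; exact hS1) (by rw [← hs0]; exact hS2) ⟨?_, hS3, hK⟩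
      intro R hR'
      have h1 : ((cn ω R).card : ℝ) ≤ k := by exact_mod_cast (hn1 R hR').le
      have h2 : κ * (s0 : ℝ) ≤ κ * S.card := by
        refine mul_le_mul_of_nonneg_left ?_ hκ.le
        exact_mod_cast hS1
      linarith
    · intro v
      have := hn3 v
      exact_mod_cast this
  have htot : Pb p (fun ω : Om n => colorable ω t) ≤ (Pb p E1 + Pb p E2) + Pb p E3 := by
    refine (Pb_mono hp0.le hp1' hcov).trans ((Pb_or hp0.le hp1' _ _).trans ?_)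
    exact add_le_add_left (Pb_or hp0.le hp1' _ _) _
  -- first event
  have hninv : Real.exp (-ℓ) = 1 / n := by rw [Real.exp_neg, hexp, one_div]
  have b1 : Pb p E1 ≤ 1 / n := by
    rw [hE1]
    refine (hCN n r k p hp0.le hp1').trans ?_
    have hk0 : (0 : ℝ) < k := lt_of_lt_of_le (by positivity) hk1
    have hA' : n * p ^ r ≤ r * ℓ := by
      have h1 : ((r : ℝ) - 1) / 2 * Real.log (1 / p) ≤ ((r : ℝ) - 1) / 2 * (1 / 3 * ℓ) :=
        mul_le_mul_of_nonneg_left hlp3 (by linarith)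
      have h2 : 0 ≤ γ * ℓ := by positivity
      have h3 : 0 ≤ (r : ℝ) * ℓ := by positivity
      linarith
    have h1 := Real.pow_div_factorial_le_exp (x := (k : ℝ)) (Nat.cast_nonneg k) k
    have h2 : (n * p ^ r) ^ k / (k.factorial : ℝ) ≤ Real.exp (-((r : ℝ) + 1) * k) := by
      have e1 : (n * p ^ r) ^ k / (k.factorial : ℝ) =
          ((n * p ^ r) / k) ^ k * ((k : ℝ) ^ k / (k.factorial : ℝ)) := by
        rw [div_pow]
        field_simp
      have e2 : (n * p ^ r) / k ≤ Real.exp (-((r : ℝ) + 2)) := by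
        rw [div_le_iff₀ hk0]
        have h3 : r * ℓ ≤ Real.exp (-((r : ℝ) + 2)) * ℓ ^ 2 := by
          have h4 := mul_le_mul_of_nonneg_left g1 (Real.exp_pos (-((r : ℝ) + 2))).le
          have h5 : Real.exp (-((r : ℝ) + 2)) * (r * Real.exp (r + 2)) = r := by
            rw [mul_comm (r : ℝ), ← mul_assoc, ← Real.exp_add]
            simp
          rw [h5] at h4
          have h6 := mul_le_mul_of_nonneg_right h4 (by linarith : (0 : ℝ) ≤ ℓ)
          rw [sq, ← mul_assoc]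
          exact h6
        have h4 : Real.exp (-((r : ℝ) + 2)) * ℓ ^ 2 ≤ Real.exp (-((r : ℝ) + 2)) * k :=
          mul_le_mul_of_nonneg_left hk1 (Real.exp_pos _).le
        linarith
      have e3 : 0 ≤ (n * p ^ r) / k := by positivity
      rw [e1]
      calc ((n * p ^ r) / k) ^ k * ((k : ℝ) ^ k / (k.factorial : ℝ))
          ≤ (Real.exp (-((r : ℝ) + 2))) ^ k * Real.exp k := by
            apply mul_le_mul (pow_le_pow_left₀ e3 e2 k) h1 (by positivity) (by positivity)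
        _ = Real.exp (-((r : ℝ) + 1) * k) := by
            rw [← Real.exp_nat_mul, ← Real.exp_add]
            congr 1
            ring
    have h3 : (n : ℝ) ^ r = Real.exp (r * ℓ) := by
      rw [← Real.rpow_natCast, hnpow]
    rw [h3, ← hninv]
    calc Real.exp (r * ℓ) * ((n * p ^ r) ^ k / (k.factorial : ℝ))
        ≤ Real.exp (r * ℓ) * Real.exp (-((r : ℝ) + 1) * k) :=
          mul_le_mul_of_nonneg_left h2 (Real.exp_pos _).le
      _ = Real.exp (r * ℓ + -((r : ℝ) + 1) * k) := by rw [Real.exp_add]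
      _ ≤ Real.exp (-ℓ) := by
          apply Real.exp_le_exp.2
          have h5 : ℓ ≤ ℓ ^ 2 := by
            rw [sq]
            exact le_mul_of_one_le_left (by linarith) g2
          have h6 : ((r : ℝ) + 1) * ℓ ≤ ((r : ℝ) + 1) * k :=
            mul_le_mul_of_nonneg_left (h5.trans hk1) (by linarith)
          linarith
  -- second event
  have b2 : Pb p E2 ≤ 1 / n := by
    rw [hE2]
    refine hR n (by omega) p ⟨hp1, hp2⟩ ?_
    rw [← hℓ]
    exact hA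
  -- third event
  have b3 : Pb p E3 ≤ 1 / n := by
    have hinv : 1 / p ≤ (n : ℝ) ^ (1 / 3 : ℝ) := by
      rw [hnpow]
      have h1 := Real.exp_le_exp.2 hlp3
      rwa [Real.exp_log (by positivity)] at h1
    have htn2 : (t : ℝ) ≤ n / 4 := by
      have h1 : (t : ℝ) ≤ ℓ * (1 / p) := by
        rw [mul_one_div, le_div_iff₀ hp0]
        exact htl
      have h2 : ℓ * (1 / p) ≤ ℓ * (n : ℝ) ^ (1 / 3 : ℝ) :=
        mul_le_mul_of_nonneg_left hinv (by linarith)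
      have h3 : (n : ℝ) ^ (2 / 3 : ℝ) * (n : ℝ) ^ (1 / 3 : ℝ) = n := by
        rw [← Real.rpow_add hn0]
        norm_num
      have h4 : 4 * ℓ * (n : ℝ) ^ (1 / 3 : ℝ) ≤ (n : ℝ) ^ (2 / 3 : ℝ) * (n : ℝ) ^ (1 / 3 : ℝ) :=
        mul_le_mul_of_nonneg_right g7 (by positivity)
      rw [h3] at h4
      linarith
    have htn : t ≤ n := by
      have : (t : ℝ) ≤ n := by linarith
      exact_mod_cast this
    rw [hE3]
    refine (hCh n t p ((t : ℝ) * s0) hp0.le hp1' htn).trans ?_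
    -- lower bound for `n (1 - p) ^ t`
    have hlow : Real.exp (Real.log (1 / p) + ls n p + δ * X - 1) ≤ n * (1 - p) ^ t := by
      have h1 : Real.exp (-(p + p ^ 2)) ^ t ≤ (1 - p) ^ t :=
        pow_le_pow_left₀ (Real.exp_pos _).le (one_sub_ge hp0.le hph) t
      have h2 : (n : ℝ) * Real.exp (-(p + p ^ 2)) ^ t ≤ n * (1 - p) ^ t :=
        mul_le_mul_of_nonneg_left h1 hn0.le
      refine le_trans ?_ h2
      rw [← hexp, ← Real.exp_nat_mul, ← Real.exp_add]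
      apply Real.exp_le_exp.2
      have h3 : (t : ℝ) * (p + p ^ 2) ≤ (1 - δ) * X + 1 := by
        have h4 : (t : ℝ) * p * p ≤ ℓ * p := mul_le_mul_of_nonneg_right htl hp0.le
        have h5 : (t : ℝ) * (p + p ^ 2) = t * p + t * p * p := by ring
        rw [h5]
        linarith
      have h6 : ℓ - X = Real.log (1 / p) + ls n p := by rw [hX, hlnp]; ring
      linarith
    -- upper bound for `(t + 1) s0`
    have hup : 12 * ((t : ℝ) + 1) * s0 ≤ Real.exp (Real.log (1 / p) + ls n p + δ * X - 1) := by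
      have h1 : (t : ℝ) + 1 ≤ 2 * ℓ * (1 / p) := by
        rw [mul_one_div, le_div_iff₀ hp0]
        have : ((t : ℝ) + 1) * p = t * p + p := by ring
        rw [this]
        linarith
      have h2 : (s0 : ℝ) ≤ 2 * Real.exp (ls n p + 2 * γ * ℓ + ζ * ℓ) := by
        refine hsV2.trans ?_
        refine mul_le_mul_of_nonneg_left ?_ (by norm_num)
        rw [hVe]
        apply Real.exp_le_exp.2
        linarith
      have h3 : 12 * ((t : ℝ) + 1) * s0 ≤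
          12 * (2 * ℓ * (1 / p)) * (2 * Real.exp (ls n p + 2 * γ * ℓ + ζ * ℓ)) := by
        apply mul_le_mul _ h2 (Nat.cast_nonneg _)
        · have : 0 ≤ 1 / p := by positivity
          have h3 : 0 ≤ 2 * ℓ * (1 / p) := mul_nonneg (by linarith) this
          linarith
        · exact mul_le_mul_of_nonneg_left h1 (by norm_num)
      refine h3.trans ?_
      have h4 : Real.exp (Real.log (1 / p)) = 1 / p := Real.exp_log (by positivity)
      have h5 : 48 * Real.exp 1 * ℓ ≤ Real.exp (12 * γ * ℓ) := by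
        rw [← hnpow]
        exact g6
      have h6 : δ * X ≥ 16 * γ * ℓ := by
        have : δ * (ε * ℓ) ≤ δ * X := mul_le_mul_of_nonneg_left hX1 hδ.le
        rw [hγ]
        linarith
      have h7 : 12 * (2 * ℓ * (1 / p)) * (2 * Real.exp (ls n p + 2 * γ * ℓ + ζ * ℓ)) =
          (48 * Real.exp 1 * ℓ) * ((1 / p) * Real.exp (ls n p + 2 * γ * ℓ + ζ * ℓ - 1)) := by
        rw [Real.exp_sub]
        field_simp
        norm_num
      rw [h7]
      calc (48 * Real.exp 1 * ℓ) * ((1 / p) * Real.exp (ls n p + 2 * γ * ℓ + ζ * ℓ - 1))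
          ≤ Real.exp (12 * γ * ℓ) * ((1 / p) * Real.exp (ls n p + 2 * γ * ℓ + ζ * ℓ - 1)) :=
            mul_le_mul_of_nonneg_right h5 (by positivity)
        _ = Real.exp (12 * γ * ℓ + (Real.log (1 / p) + (ls n p + 2 * γ * ℓ + ζ * ℓ - 1))) := by
            rw [Real.exp_add, Real.exp_add (Real.log (1 / p)), h4]
        _ ≤ Real.exp (Real.log (1 / p) + ls n p + δ * X - 1) := by
            apply Real.exp_le_exp.2
            have h8 : ζ * ℓ ≤ γ * ℓ := by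
              refine mul_le_mul_of_nonneg_right ?_ (by linarith)
              rw [hζ]; linarith
            have h9 : 0 ≤ γ * ℓ := by positivity
            linarith
    have hmain : 12 * ((t : ℝ) + 1) * s0 ≤ n * (1 - p) ^ t := hup.trans hlow
    have hsl : ℓ ≤ s0 := by linarith
    have h10 : (n : ℝ) ^ t = Real.exp (t * ℓ) := by
      rw [← Real.rpow_natCast, hnpow]
    rw [h10, ← Real.exp_add, ← hninv]
    apply Real.exp_le_exp.2
    have hP0 : 0 ≤ (1 - p) ^ t := pow_nonneg (by linarith) _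
    have h11 : n / 2 * (1 - p) ^ t ≤ ((n : ℝ) - t) * (1 - p) ^ t :=
      mul_le_mul_of_nonneg_right (by linarith) hP0
    have h12 : (t : ℝ) * ℓ ≤ t * s0 := mul_le_mul_of_nonneg_left hsl ht0
    have hs0r : (0 : ℝ) ≤ s0 := Nat.cast_nonneg _
    have h13 : 0 ≤ (t : ℝ) * s0 := mul_nonneg ht0 hs0r
    have h14 : n / 2 * (1 - p) ^ t = (n * (1 - p) ^ t) / 2 := by ring
    have h15 : 12 * ((t : ℝ) + 1) * s0 = 12 * (t * s0) + 12 * s0 := by ring
    rw [h15] at hmain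
    rw [h14] at h11
    linarith
  have hnδ : 3 / (n : ℝ) ≤ δ := by
    rw [div_le_iff₀ hn0]
    have h1 : (n3 : ℝ) ≤ n := by exact_mod_cast (by omega : n3 ≤ n)
    have h2 : 3 / δ ≤ n := hn3.trans h1
    rw [div_le_iff₀ hδ] at h2
    linarith
  have h3n : (1 : ℝ) / n + 1 / n + 1 / n = 3 / n := by ring
  linarith

theorem taskTopLow : TaskTopLow := by
  intro hCN hCh hLD hChoose hLR ε δ hε hδ hδ1
  have hεδ : ε * δ ≤ ε * 1 := mul_le_mul_of_nonneg_left hδ1.le hε.le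
  obtain ⟨n1, hn1⟩ := hChoose ε (ε * δ / 16) hε (by positivity) (by linarith)
  have hfix : ∀ r : ℕ, ∃ n0 : ℕ, 3 ≤ r → ∀ n : ℕ, n0 ≤ n → ∀ p : ℝ, rng ε n p →
      n * p ^ r ≤ ((r : ℝ) - 1) / 2 * Real.log (1 / p) - (ε * δ / 16) * Real.log n →
      (r : ℝ) / 2 * Real.log (1 / p) + n * p ^ r / ((r : ℝ) - 1) ≤
        ls n p + 2 * (ε * δ / 16) * Real.log n →
      ε * Real.log n ≤ Real.log (n * p) - ls n p → Real.log (1 / p) ≤ ls n p →
      ls n p ≤ Real.log n →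
      Pb p (fun ω : Om n => colorable ω ⌊(1 - δ) * fv n p⌋₊) ≤ δ := by
    intro r
    by_cases hr : 3 ≤ r
    · obtain ⟨n0, h⟩ := fixed hCN hCh hLD hLR ε δ hε hδ hδ1 r hr
      exact ⟨n0, fun _ => h⟩
    · exact ⟨0, fun h => absurd h hr⟩
  choose F hF using hfix
  refine ⟨n1 + (range (⌊2 / ε + 4⌋₊ + 1)).sup F, ?_⟩
  intro n hn p hp
  obtain ⟨⟨r, hr1, hr2, hr3, hr4⟩, h2, h3, h4⟩ := hn1 n (by omega) p hp
  have hrm : r ∈ range (⌊2 / ε + 4⌋₊ + 1) := by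
    rw [mem_range]
    have := Nat.le_floor hr2
    omega
  have hFr : F r ≤ (range (⌊2 / ε + 4⌋₊ + 1)).sup F := le_sup hrm
  exact hF r hr1 n (by omega) p hp hr3 hr4 h2 h3 h4

end Pool.Agent.L5helper15.CQ
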